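import Pool.Agent.KS7_39.D51.Cf

set_option autoImplicit false

namespace Pool.Agent.Results.MP_d2f6cf_al.SameCubes
open Pool.Agent.KS7_39.D51 Pool.Agent.Helper313.Cube

/-- The bijection `Ψ × Ψ × Ψ` of third direct powers. -/
def cubeMap {P Q : Type} (Ψ : P ≃ Q) : (P × P × P) ≃ (Q × Q × Q) :=
  Equiv.prodCongr Ψ (Equiv.prodCongr Ψ Ψ)

/-- A set `U` of triples is a subgroup of `P × P × P` exactly when its image under `Ψ × Ψ × Ψ` is
a subgroup of `Q × Q × Q`. -/
def SameSubgroupsOfCubes {P Q : Type} [Group P] [Group Q] (Ψ : P ≃ Q) : Prop :=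
  ∀ U : Set (P × P × P), (∃ V : Subgroup (P × P × P), (V : Set (P × P × P)) = U) ↔
    ∃ W : Subgroup (Q × Q × Q), (W : Set (Q × Q × Q)) = cubeMap Ψ '' U

/-- For some bijection `P → Q` the multiplication of `Q`, carried over to `P`, is a term operation
(word map) of `P`. -/
def TermExpressible (P Q : Type) [Group P] [Group Q] : Prop :=
  ∃ (f : P ≃ Q) (w : FreeGroup (Fin 2)), ∀ x y : P, f.symm (f x * f y) = FreeGroup.lift ![x, y] w

/-- All commutators commute. -/
def Metabelian (P : Type) [Group P] : Prop :=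
  ∀ a b c d : P, Commute (a * b * a⁻¹ * b⁻¹) (c * d * c⁻¹ * d⁻¹)

/-- There are finite metabelian `7`-groups `G`, `H` and a bijection `ψ : G → H` such that for every
finite group `A` of order prime to `7` the cubes of `G × A` and `H × A` have the same subgroups
under `ψ × id` (so isomorphic subgroup lattices), but the multiplication of `H × A` is not a term
operation of `G × A` under any bijection. -/
theorem result : ∃ (G H : Type) (_ : Group G) (_ : Group H) (_ : Finite G) (_ : Finite H)
    (ψ : G ≃ H), IsPGroup 7 G ∧ IsPGroup 7 H ∧ Metabelian G ∧ Metabelian H ∧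
      ∀ (A : Type) [Group A] [Finite A], Nat.Coprime 7 (Nat.card A) →
        SameSubgroupsOfCubes (ψ.prodCongr (Equiv.refl A)) ∧
        Nonempty (Subgroup ((G × A) × (G × A) × (G × A)) ≃o
          Subgroup ((H × A) × (H × A) × (H × A))) ∧
        ¬ TermExpressible (G × A) (H × A) := by
  refine ⟨G1 theSetup, H1 theSetup, inferInstance, inferInstance, inferInstance, inferInstance,
    psi theSetup, pgroup theSetup _, pgroup theSetup _, fun a b c d => ?_, fun a b c d => ?_,
    fun A _ _ hA => ?_⟩
  · have := metab a b c d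
    rwa [mul_inv_rev, mul_inv_rev, ← mul_assoc, ← mul_assoc] at this
  · have := metab a b c d
    rwa [mul_inv_rev, mul_inv_rev, ← mul_assoc, ← mul_assoc] at this
  · have hcard : Nat.card (G1 theSetup) = Nat.card (H1 theSetup) := Nat.card_congr (psi theSetup)
    have hG : (Nat.card (G1 theSetup)).Coprime (Nat.card A) := by
      have : Fact (Nat.Prime 7) := ⟨by norm_num⟩
      obtain ⟨n, hn⟩ := (IsPGroup.iff_card (p := 7)).1 (pgroup theSetup theSetup.i)
      rw [show Nat.card (G1 theSetup) = 7 ^ n from hn]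
      exact hA.pow_left n
    have hH : (Nat.card (H1 theSetup)).Coprime (Nat.card A) := hcard ▸ hG
    have hS := same_of_pres ((pres_psi theSetup).prod (A := A) hG)
      ((pres_psi_symm theSetup).prod (A := A) hH)
    refine ⟨hS, ⟨iso_of_same hS⟩, ?_⟩
    rintro ⟨f, w, hw⟩
    obtain ⟨f', hf'⟩ := reduce hcard hG f w hw
    obtain ⟨C⟩ := extract theSetup f' w hf'
    exact core_false C

end Pool.Agent.Results.MP_d2f6cf_al.SameCubes
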